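import Mathlib

open MeasureTheory Set Filter Topology

namespace Pool.Agent.Results.MP_d02974_an.DeviatoricPlane

/-- `ℝⁿ`. -/
abbrev Sp (n : ℕ) := EuclideanSpace ℝ (Fin n)

/-- The partial derivative `∂ᵢ φ`. -/
noncomputable def pd {n : ℕ} (φ : Sp n → ℝ) (i : Fin n) (x : Sp n) : ℝ :=
  fderiv ℝ φ x (EuclideanSpace.single i 1)

/-- `u ∈ L¹(Ω;ℝⁿ)` and the distribution `E_d u` on `Ω` is the finite matrix-valued measure `σ ν`,
where `σ` is symmetric and trace-free with Frobenius norm `1` `ν`-almost everywhere (polar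
decomposition): `ν = |E_d u|`. -/
structure DevMeasure (n : ℕ) (Ω : Set (Sp n)) (u : Sp n → Sp n) (ν : Measure (Sp n))
    (σ : Sp n → Fin n → Fin n → ℝ) : Prop where
  intble : IntegrableOn u Ω
  finite : IsFiniteMeasure ν
  supp : ν Ωᶜ = 0
  meas : ∀ i j, Measurable fun x => σ x i j
  symm : ∀ x i j, σ x i j = σ x j i
  trace : ∀ x, ∑ i, σ x i i = 0
  unit : ∀ᵐ x ∂ν, ∑ i, ∑ j, (σ x i j) ^ 2 = 1
  test : ∀ φ : Sp n → ℝ, ContDiff ℝ (⊤ : ℕ∞) φ → HasCompactSupport φ → tsupport φ ⊆ Ω →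
    ∀ i j, -∫ x in Ω, ((u x i * pd φ j x + u x j * pd φ i x) / 2 -
      if i = j then (∑ k, u x k * pd φ k x) / n else 0) = ∫ x, φ x * σ x i j ∂ν

/-- The approximate discontinuity set `S_u`. -/
def discSet {n : ℕ} (Ω : Set (Sp n)) (u : Sp n → Sp n) : Set (Sp n) :=
  {x ∈ Ω | ¬ ∃ z : Sp n, Tendsto
    (fun r : ℝ => (volume (Metric.ball x r)).toReal⁻¹ * ∫ y in Metric.ball x r, ‖u y - z‖)
    (𝓝[>] 0) (𝓝 0)}

/-- The half ball `{y ∈ B_r(x) : (y - x)·ν > 0}`. -/
def halfBall {n : ℕ} (x ν : Sp n) (r : ℝ) : Set (Sp n) :=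
  {y ∈ Metric.ball x r | 0 < inner ℝ (y - x) ν}

/-- The jump set `J_u`. -/
def jumpSet {n : ℕ} (Ω : Set (Sp n)) (u : Sp n → Sp n) : Set (Sp n) :=
  {x ∈ Ω | ∃ a b ν : Sp n, a ≠ b ∧ ‖ν‖ = 1 ∧
    Tendsto (fun r : ℝ => (volume (halfBall x ν r)).toReal⁻¹ * ∫ y in halfBall x ν r, ‖u y - a‖)
      (𝓝[>] 0) (𝓝 0) ∧
    Tendsto (fun r : ℝ =>
      (volume (halfBall x (-ν) r)).toReal⁻¹ * ∫ y in halfBall x (-ν) r, ‖u y - b‖)
      (𝓝[>] 0) (𝓝 0)}

/-! ### Polar coordinates -/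

/-- `(a, b) ↦ !₂[a, b]` -/
noncomputable def P : ℝ × ℝ ≃ᵐ Sp 2 :=
  MeasurableEquiv.finTwoArrow.symm.trans (MeasurableEquiv.toLp 2 (Fin 2 → ℝ))

lemma P_mp : MeasurePreserving (P : ℝ × ℝ → Sp 2) volume volume :=
  (PiLp.volume_preserving_toLp (Fin 2)).comp (volume_preserving_finTwoArrow ℝ).symm

lemma P_zero (a b : ℝ) : P (a, b) 0 = a := rfl
lemma P_one (a b : ℝ) : P (a, b) 1 = b := rfl

/-- unit vector -/
noncomputable def e (θ : ℝ) : Sp 2 := P (Real.cos θ, Real.sin θ)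
/-- rotated unit vector -/
noncomputable def e' (θ : ℝ) : Sp 2 := P (-Real.sin θ, Real.cos θ)

lemma P_polar (r θ : ℝ) : P (r * Real.cos θ, r * Real.sin θ) = r • e θ := by
  ext i
  fin_cases i
  · simp only [Fin.zero_eta, PiLp.smul_apply, smul_eq_mul]; rfl
  · simp only [Fin.mk_one, PiLp.smul_apply, smul_eq_mul]; rfl

lemma polar_int (f : Sp 2 → ℝ) :
    ∫ x, f x = ∫ p in Ioi (0 : ℝ) ×ˢ Ioo (-Real.pi) Real.pi, p.1 * f (p.1 • e p.2) := by
  rw [← P_mp.integral_comp' f, ← integral_comp_polarCoord_symm, polarCoord_target]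
  refine setIntegral_congr_fun (measurableSet_Ioi.prod measurableSet_Ioo) fun p _ => ?_
  simp only [polarCoord_symm_apply, smul_eq_mul, P_polar]

lemma e_norm (θ : ℝ) : ‖e θ‖ = 1 := by
  rw [EuclideanSpace.norm_eq, Fin.sum_univ_two]
  unfold e
  rw [P_zero, P_one, Real.norm_eq_abs, Real.norm_eq_abs, sq_abs, sq_abs, Real.cos_sq_add_sin_sq,
    Real.sqrt_one]

lemma P_eq (a b : ℝ) : P (a, b) = a • (EuclideanSpace.single 0 1 : Sp 2) + b • EuclideanSpace.single 1 1 := by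
  ext i
  fin_cases i
  · simp only [Fin.zero_eta, PiLp.add_apply, PiLp.smul_apply, smul_eq_mul]
    rw [P_zero]; simp
  · simp only [Fin.mk_one, PiLp.add_apply, PiLp.smul_apply, smul_eq_mul]
    rw [P_one]; simp

lemma hasDeriv_e (θ : ℝ) : HasDerivAt e (e' θ) θ := by
  have h1 : e = fun θ => Real.cos θ • (EuclideanSpace.single 0 1 : Sp 2) +
      Real.sin θ • EuclideanSpace.single 1 1 := by
    funext θ; exact P_eq _ _
  have h2 : e' θ = (-Real.sin θ) • (EuclideanSpace.single 0 1 : Sp 2) +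
      Real.cos θ • EuclideanSpace.single 1 1 := P_eq _ _
  rw [h1, h2]
  exact ((Real.hasDerivAt_cos θ).smul_const _).add ((Real.hasDerivAt_sin θ).smul_const _)

lemma cont_e : Continuous e := by
  rw [continuous_iff_continuousAt]
  exact fun θ => (hasDeriv_e θ).continuousAt

lemma cont_e' : Continuous e' := by
  have h2 : e' = fun θ => (-Real.sin θ) • (EuclideanSpace.single 0 1 : Sp 2) +
      Real.cos θ • EuclideanSpace.single 1 1 := by
    funext θ; exact P_eq _ _
  rw [h2]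
  fun_prop

/-! ### Two integrals -/

lemma fd_eq {φ : Sp 2 → ℝ} (x : Sp 2) (a b : ℝ) :
    fderiv ℝ φ x (P (a, b)) = a * pd φ 0 x + b * pd φ 1 x := by
  rw [P_eq, map_add, map_smul, map_smul]
  rfl

section
variable {φ : Sp 2 → ℝ} (h1 : ContDiff ℝ (⊤ : ℕ∞) φ) (hs : tsupport φ ⊆ Metric.ball 0 1)

include hs in
lemma phi_zero {x : Sp 2} (hx : 1 ≤ ‖x‖) : φ x = 0 := by
  apply image_eq_zero_of_notMem_tsupport
  intro h
  have := hs h
  rw [mem_ball_zero_iff] at this
  linarith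

include hs in
lemma dphi_zero {x : Sp 2} (hx : 1 ≤ ‖x‖) : fderiv ℝ φ x = 0 := by
  have hx' : x ∉ tsupport φ := by
    intro h
    have := hs h
    rw [mem_ball_zero_iff] at this
    linarith
  have h2 : x ∉ tsupport (fderiv ℝ φ) := fun h => hx' (tsupport_fderiv_subset ℝ h)
  exact image_eq_zero_of_notMem_tsupport h2

include h1 in
lemma dphi_cont : Continuous (fderiv ℝ φ) := h1.continuous_fderiv (by simp)

include h1 hs in
/-- Fubini for functions `Dφ(r e(θ)) w(θ)` -/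
lemma fubini (w : ℝ → Sp 2) (hw : Continuous w) :
    IntegrableOn (fun p : ℝ × ℝ => fderiv ℝ φ (p.1 • e p.2) (w p.2))
      (Ioc (0 : ℝ) 1 ×ˢ Ioo (-Real.pi) Real.pi) ∧
    ∫ p in Ioi (0 : ℝ) ×ˢ Ioo (-Real.pi) Real.pi, fderiv ℝ φ (p.1 • e p.2) (w p.2) =
      ∫ p in Ioc (0 : ℝ) 1 ×ˢ Ioo (-Real.pi) Real.pi, fderiv ℝ φ (p.1 • e p.2) (w p.2) := by
  have hc : Continuous (fun p : ℝ × ℝ => fderiv ℝ φ (p.1 • e p.2) (w p.2)) := by
    have hd := dphi_cont h1
    have he := cont_e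
    exact (hd.comp (continuous_fst.smul (he.comp continuous_snd))).clm_apply (hw.comp continuous_snd)
  constructor
  · have hK : IsCompact (Icc (0 : ℝ) 1 ×ˢ Icc (-Real.pi) Real.pi) := isCompact_Icc.prod isCompact_Icc
    exact (hc.continuousOn.integrableOn_compact hK).mono_set
      (prod_mono Ioc_subset_Icc_self Ioo_subset_Icc_self)
  · refine setIntegral_eq_of_subset_of_forall_sdiff_eq_zero
      (measurableSet_Ioi.prod measurableSet_Ioo) (Set.prod_mono Ioc_subset_Ioi_self subset_rfl) ?_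
    rintro ⟨r, θ⟩ ⟨⟨hr, hθ⟩, hn⟩
    have hr1 : 1 < r := by
      by_contra h
      exact hn ⟨⟨hr, not_lt.1 h⟩, hθ⟩
    simp only
    rw [dphi_zero hs]
    · rfl
    · rw [norm_smul, e_norm, mul_one, Real.norm_eq_abs, abs_of_pos (by linarith)]
      exact hr1.le

include h1 hs in
lemma int_radial : ∫ x, (x 0 * pd φ 0 x + x 1 * pd φ 1 x) / ‖x‖ ^ 2 = -(2 * Real.pi * φ 0) := by
  rw [polar_int]
  have e1 : ∀ p ∈ Ioi (0 : ℝ) ×ˢ Ioo (-Real.pi) Real.pi,
      p.1 * (((p.1 • e p.2) 0 * pd φ 0 (p.1 • e p.2) + (p.1 • e p.2) 1 * pd φ 1 (p.1 • e p.2)) /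
        ‖p.1 • e p.2‖ ^ 2) = fderiv ℝ φ (p.1 • e p.2) (e p.2) := by
    rintro ⟨r, θ⟩ ⟨hr, _⟩
    have hr' : (0 : ℝ) < r := hr
    simp only
    rw [norm_smul, e_norm, mul_one, Real.norm_eq_abs, sq_abs]
    have h2 : fderiv ℝ φ (r • e θ) (e θ) =
        Real.cos θ * pd φ 0 (r • e θ) + Real.sin θ * pd φ 1 (r • e θ) := fd_eq _ _ _
    rw [h2]
    have h3 : (r • e θ) 0 = r * Real.cos θ := rfl
    have h4 : (r • e θ) 1 = r * Real.sin θ := rfl
    rw [h3, h4]
    field_simp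
  rw [setIntegral_congr_fun (measurableSet_Ioi.prod measurableSet_Ioo) e1]
  obtain ⟨hi, h2⟩ := fubini h1 hs e cont_e
  rw [h2]
  unfold IntegrableOn at hi
  rw [Measure.volume_eq_prod, ← Measure.prod_restrict] at hi ⊢
  rw [integral_prod_symm _ hi]
  have h3 : ∀ θ : ℝ, ∫ r in Ioc (0 : ℝ) 1, fderiv ℝ φ (r • e θ) (e θ) = -φ 0 := by
    intro θ
    rw [← intervalIntegral.integral_of_le zero_le_one]
    have h4 : ∀ r ∈ uIcc (0 : ℝ) 1, HasDerivAt (fun r : ℝ => φ (r • e θ)) (fderiv ℝ φ (r • e θ) (e θ)) r := by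
      intro r _
      have h5 : HasDerivAt (fun r : ℝ => r • e θ) ((1 : ℝ) • e θ) r := (hasDerivAt_id r).smul_const _
      rw [one_smul] at h5
      have h6 : HasFDerivAt φ (fderiv ℝ φ (r • e θ)) (r • e θ) :=
        ((h1.differentiable (by simp)) _).hasFDerivAt
      exact h6.comp_hasDerivAt r h5
    rw [intervalIntegral.integral_eq_sub_of_hasDerivAt h4]
    · rw [one_smul, zero_smul, phi_zero hs (e_norm θ).ge, zero_sub]
    · apply Continuous.intervalIntegrable
      exact ((dphi_cont h1).comp (continuous_id.smul continuous_const)).clm_apply continuous_const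
  simp only [h3]
  rw [setIntegral_const]
  simp
  left
  rw [max_eq_left (by positivity)]
  ring

include h1 hs in
lemma int_angular : ∫ x, (x 0 * pd φ 1 x - x 1 * pd φ 0 x) / ‖x‖ ^ 2 = 0 := by
  rw [polar_int]
  have e1 : ∀ p ∈ Ioi (0 : ℝ) ×ˢ Ioo (-Real.pi) Real.pi,
      p.1 * (((p.1 • e p.2) 0 * pd φ 1 (p.1 • e p.2) - (p.1 • e p.2) 1 * pd φ 0 (p.1 • e p.2)) /
        ‖p.1 • e p.2‖ ^ 2) = fderiv ℝ φ (p.1 • e p.2) (e' p.2) := by
    rintro ⟨r, θ⟩ ⟨hr, _⟩
    have hr' : (0 : ℝ) < r := hr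
    simp only
    rw [norm_smul, e_norm, mul_one, Real.norm_eq_abs, sq_abs]
    have h2 : fderiv ℝ φ (r • e θ) (e' θ) =
        (-Real.sin θ) * pd φ 0 (r • e θ) + Real.cos θ * pd φ 1 (r • e θ) := fd_eq _ _ _
    rw [h2]
    have h3 : (r • e θ) 0 = r * Real.cos θ := rfl
    have h4 : (r • e θ) 1 = r * Real.sin θ := rfl
    rw [h3, h4]
    field_simp
    ring
  rw [setIntegral_congr_fun (measurableSet_Ioi.prod measurableSet_Ioo) e1]
  obtain ⟨hi, h2⟩ := fubini h1 hs e' cont_e'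
  rw [h2]
  unfold IntegrableOn at hi
  rw [Measure.volume_eq_prod, ← Measure.prod_restrict] at hi ⊢
  rw [integral_prod _ hi]
  apply integral_eq_zero_of_ae
  filter_upwards [ae_restrict_mem measurableSet_Ioc] with r hr
  simp only [Pi.zero_apply]
  rw [← integral_Ioc_eq_integral_Ioo, ← intervalIntegral.integral_of_le (by linarith [Real.pi_pos])]
  have h4 : ∀ θ ∈ uIcc (-Real.pi) Real.pi,
      HasDerivAt (fun θ : ℝ => r⁻¹ * φ (r • e θ)) (fderiv ℝ φ (r • e θ) (e' θ)) θ := by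
    intro θ _
    have h5 : HasDerivAt (fun θ : ℝ => r • e θ) (r • e' θ) θ := (hasDeriv_e θ).const_smul r
    have h6 : HasFDerivAt φ (fderiv ℝ φ (r • e θ)) (r • e θ) :=
      ((h1.differentiable (by simp)) _).hasFDerivAt
    have h7 := (h6.comp_hasDerivAt θ h5).const_mul r⁻¹
    have hr0 : r ≠ 0 := hr.1.ne'
    have h8 : r⁻¹ * (fderiv ℝ φ (r • e θ)) (r • e' θ) = (fderiv ℝ φ (r • e θ)) (e' θ) := by
      rw [map_smul, smul_eq_mul]
      field_simp
    rw [h8] at h7
    exact h7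
  rw [intervalIntegral.integral_eq_sub_of_hasDerivAt h4]
  · have : e Real.pi = e (-Real.pi) := by
      unfold e; simp
    rw [this, sub_self]
  · apply Continuous.intervalIntegrable
    have hc : Continuous (fun θ : ℝ => r • e θ) := cont_e.const_smul r
    exact ((dphi_cont h1).comp hc).clm_apply cont_e'

end

/-! ### The field `1/z` -/

/-- `u(x) = (x₁, -x₂)/|x|²`, i.e. `u₁ + i u₂ = 1/(x₁ + i x₂)`. -/
noncomputable def fld (x : Sp 2) : Sp 2 := P (x 0 / ‖x‖ ^ 2, -x 1 / ‖x‖ ^ 2)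

lemma fld_zero (x : Sp 2) : fld x 0 = x 0 / ‖x‖ ^ 2 := rfl
lemma fld_one (x : Sp 2) : fld x 1 = -x 1 / ‖x‖ ^ 2 := rfl

lemma norm_sq (x : Sp 2) : ‖x‖ ^ 2 = x 0 ^ 2 + x 1 ^ 2 := by
  rw [EuclideanSpace.norm_sq_eq, Fin.sum_univ_two, Real.norm_eq_abs, Real.norm_eq_abs, sq_abs, sq_abs]

lemma fld_norm (x : Sp 2) : ‖fld x‖ = ‖x‖⁻¹ := by
  by_cases hx : x = 0
  · have : fld x = 0 := by
      rw [hx]
      unfold fld
      simp
      ext i
      fin_cases i
      · rfl
      · rfl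
    rw [this, hx]; simp
  · have h0 : ‖x‖ ≠ 0 := norm_ne_zero_iff.2 hx
    have h1 : ‖fld x‖ ^ 2 = (‖x‖⁻¹) ^ 2 := by
      rw [norm_sq (fld x), fld_zero, fld_one]
      have h2 := norm_sq x
      have h3 : x 0 ^ 2 + x 1 ^ 2 ≠ 0 := by rw [← h2]; positivity
      rw [inv_pow, h2]
      field_simp
    have h4 : 0 ≤ ‖x‖⁻¹ := by positivity
    exact (pow_left_inj₀ (norm_nonneg _) h4 two_ne_zero).1 h1

lemma fld_meas : Measurable fld := by
  unfold fld
  apply P.measurable.comp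
  fun_prop

lemma inv_norm_int : IntegrableOn (fun x : Sp 2 => ‖x‖⁻¹) (Metric.ball 0 1) := by
  have h1 := (integrable_fun_norm_addHaar (E := Sp 2) (F := ℝ) volume
    (f := fun y => (Iio (1 : ℝ)).indicator (fun y => y⁻¹) y)).2 ?_
  · rw [← integrable_indicator_iff Metric.isOpen_ball.measurableSet]
    refine h1.congr (Eventually.of_forall fun x => ?_)
    by_cases hx : ‖x‖ < 1
    · simp only [indicator, mem_Iio, mem_ball_zero_iff, hx, if_true]
    · simp only [indicator, mem_Iio, mem_ball_zero_iff, hx, if_false]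
  · have h2 : IntegrableOn (fun _ : ℝ => (1 : ℝ)) (Ioo (0 : ℝ) 1) := by
      exact integrableOn_const (by simp) (by simp)
    have h3 : IntegrableOn (fun y : ℝ => (Iio (1 : ℝ)).indicator (fun _ => (1 : ℝ)) y) (Ioi 0) := by
      rw [← integrable_indicator_iff measurableSet_Ioi]
      rw [← integrable_indicator_iff measurableSet_Ioo] at h2
      refine h2.congr (Eventually.of_forall fun y => ?_)
      by_cases hy0 : 0 < y <;> by_cases hy1 : y < 1 <;> simp [indicator, hy0, hy1]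
    refine h3.congr_fun (fun y hy => ?_) measurableSet_Ioi
    have hy' : (0 : ℝ) < y := hy
    simp only [finrank_euclideanSpace, Fintype.card_fin]
    by_cases hy1 : y < 1
    · simp only [indicator, mem_Iio, hy1, if_true]
      norm_num
      field_simp
    · simp only [indicator, mem_Iio, hy1, if_false]
      simp

lemma fld_int : IntegrableOn fld (Metric.ball 0 1) := by
  refine inv_norm_int.mono' fld_meas.aestronglyMeasurable (Eventually.of_forall fun x => ?_)
  rw [fld_norm]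

/-- `σ = diag(1,-1)/√2` -/
noncomputable def sg (_ : Sp 2) (i j : Fin 2) : ℝ :=
  if i = j then (if i = 0 then 1 / √2 else -(1 / √2)) else 0

lemma fld_dev : DevMeasure 2 (Metric.ball 0 1) fld
    (ENNReal.ofReal (Real.pi * √2) • Measure.dirac 0) sg where
  intble := fld_int
  finite := by
    refine ⟨?_⟩
    simp
  supp := by
    rw [Measure.smul_apply, Measure.dirac_apply' _ Metric.isOpen_ball.measurableSet.compl]
    simp
  meas := fun i j => by unfold sg; exact measurable_const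
  symm := fun x i j => by
    unfold sg
    by_cases h : i = j
    · subst h; rfl
    · rw [if_neg h, if_neg (Ne.symm h)]
  trace := fun x => by
    rw [Fin.sum_univ_two]
    simp [sg]
  unit := Eventually.of_forall fun x => by
    rw [Fin.sum_univ_two, Fin.sum_univ_two, Fin.sum_univ_two]
    have h2 : (√2 : ℝ) ^ 2 = 2 := Real.sq_sqrt (by norm_num)
    simp [sg]
    norm_num
  test := by
    intro φ h1 _ hs i j
    have hfull : ∀ (F : Sp 2 → ℝ), (∀ x, fderiv ℝ φ x = 0 → F x = 0) →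
        ∫ x in Metric.ball (0 : Sp 2) 1, F x = ∫ x, F x := by
      intro F hF
      apply setIntegral_eq_integral_of_forall_compl_eq_zero
      intro x hx
      apply hF
      apply dphi_zero hs
      rw [mem_ball_zero_iff] at hx
      exact not_lt.1 hx
    have hpd : ∀ x, fderiv ℝ φ x = 0 → ∀ k, pd φ k x = 0 := by
      intro x hx k
      unfold pd
      rw [hx]; rfl
    have hR : ∫ x, φ x * sg x i j ∂(ENNReal.ofReal (Real.pi * √2) • Measure.dirac (0 : Sp 2)) =
        Real.pi * √2 * (φ 0 * sg 0 i j) := by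
      rw [integral_smul_measure, integral_dirac, ENNReal.toReal_ofReal (by positivity)]
      rfl
    have h2 : (√2 : ℝ) * √2 = 2 := Real.mul_self_sqrt (by norm_num)
    have h2' : (√2 : ℝ) ≠ 0 := by positivity
    have hrad := int_radial h1 hs
    have hang := int_angular h1 hs
    rw [hR]
    fin_cases i <;> fin_cases j
    · simp only [Fin.zero_eta, if_true, sg]
      rw [hfull _ (fun x hx => by simp [hpd x hx])]
      have e1 : ∀ x : Sp 2, (fld x 0 * pd φ 0 x + fld x 0 * pd φ 0 x) / 2 -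
          (∑ k, fld x k * pd φ k x) / (2 : ℕ) =
          (1 / 2) * ((x 0 * pd φ 0 x + x 1 * pd φ 1 x) / ‖x‖ ^ 2) := by
        intro x
        rw [Fin.sum_univ_two, fld_zero, fld_one]
        push_cast
        ring
      simp_rw [e1]
      rw [integral_const_mul, hrad]
      field_simp
    · simp only [Fin.zero_eta, Fin.mk_one, sg, zero_ne_one, if_false]
      rw [hfull _ (fun x hx => by simp [hpd x hx])]
      have e1 : ∀ x : Sp 2, (fld x 0 * pd φ 1 x + fld x 1 * pd φ 0 x) / 2 - 0 =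
          (1 / 2) * ((x 0 * pd φ 1 x - x 1 * pd φ 0 x) / ‖x‖ ^ 2) := by
        intro x
        rw [fld_zero, fld_one]
        ring
      simp_rw [e1]
      rw [integral_const_mul, hang]
      simp
    · simp only [Fin.zero_eta, Fin.mk_one, sg, one_ne_zero, if_false]
      rw [hfull _ (fun x hx => by simp [hpd x hx])]
      have e1 : ∀ x : Sp 2, (fld x 1 * pd φ 0 x + fld x 0 * pd φ 1 x) / 2 - 0 =
          (1 / 2) * ((x 0 * pd φ 1 x - x 1 * pd φ 0 x) / ‖x‖ ^ 2) := by
        intro x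
        rw [fld_zero, fld_one]
        ring
      simp_rw [e1]
      rw [integral_const_mul, hang]
      simp
    · simp only [Fin.mk_one, if_true, sg]
      rw [if_neg (by decide)]
      rw [hfull _ (fun x hx => by simp [hpd x hx])]
      have e1 : ∀ x : Sp 2, (fld x 1 * pd φ 1 x + fld x 1 * pd φ 1 x) / 2 -
          (∑ k, fld x k * pd φ k x) / (2 : ℕ) =
          (-1 / 2) * ((x 0 * pd φ 0 x + x 1 * pd φ 1 x) / ‖x‖ ^ 2) := by
        intro x
        rw [Fin.sum_univ_two, fld_zero, fld_one]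
        push_cast
        ring
      simp_rw [e1]
      rw [integral_const_mul, hrad]
      field_simp

/-- Lower bound for averages. -/
lemma avg_lower (A : Set (Sp 2)) (hA : MeasurableSet A) (r : ℝ) (hr : 0 < r) (hr1 : r ≤ 1)
    (hAr : A ⊆ Metric.ball 0 r) (hpos : volume A ≠ 0) (z : Sp 2) :
    r⁻¹ - ‖z‖ ≤ (volume A).toReal⁻¹ * ∫ y in A, ‖fld y - z‖ := by
  have hfin : volume A ≠ ⊤ := ((measure_mono hAr).trans_lt measure_ball_lt_top).ne
  have hv : 0 < (volume A).toReal := ENNReal.toReal_pos hpos hfin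
  have hint : IntegrableOn (fun y => ‖fld y - z‖) A := by
    have h1 : IntegrableOn fld A := fld_int.mono_set (hAr.trans (Metric.ball_subset_ball hr1))
    exact (h1.sub (integrableOn_const hfin (by simp))).norm
  have h2 : (volume A).toReal * (r⁻¹ - ‖z‖) ≤ ∫ y in A, ‖fld y - z‖ := by
    have h3 : ∫ y in A, (r⁻¹ - ‖z‖) = (volume A).toReal * (r⁻¹ - ‖z‖) := by
      rw [setIntegral_const]; rfl
    rw [← h3]
    have hae : ∀ᵐ y ∂(volume.restrict A), r⁻¹ - ‖z‖ ≤ ‖fld y - z‖ := by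
      have hne : ∀ᵐ y : Sp 2, y ≠ 0 := by
        rw [ae_iff]; simp
      filter_upwards [ae_restrict_mem hA, ae_restrict_of_ae hne] with y hy hy0
      have h4 : ‖y‖ < r := by simpa using hAr hy
      have h5 : 0 < ‖y‖ := norm_pos_iff.2 hy0
      have h6 : r⁻¹ ≤ ‖fld y‖ := by
        rw [fld_norm]; exact (inv_le_inv₀ hr h5).2 h4.le
      have h7 := norm_sub_norm_le (fld y) z
      linarith
    exact integral_mono_ae (integrableOn_const hfin (by simp)) hint hae
  rw [inv_mul_eq_div, le_div_iff₀ hv]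
  linarith

lemma not_tendsto (A : ℝ → Set (Sp 2)) (hA : ∀ r, MeasurableSet (A r))
    (hAr : ∀ r, A r ⊆ Metric.ball 0 r) (hpos : ∀ r, 0 < r → volume (A r) ≠ 0) (z : Sp 2) :
    ¬ Tendsto (fun r : ℝ => (volume (A r)).toReal⁻¹ * ∫ y in A r, ‖fld y - z‖) (𝓝[>] 0) (𝓝 0) := by
  intro h
  have h1 : Tendsto (fun r : ℝ => r⁻¹ - ‖z‖) (𝓝[>] 0) atTop :=
    tendsto_atTop_add_const_right _ _ tendsto_inv_nhdsGT_zero
  have h2 : Tendsto (fun r : ℝ => (volume (A r)).toReal⁻¹ * ∫ y in A r, ‖fld y - z‖) (𝓝[>] 0) atTop := by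
    refine tendsto_atTop_mono' _ ?_ h1
    have h3 : Ioc (0 : ℝ) 1 ∈ 𝓝[>] (0 : ℝ) := Ioc_mem_nhdsGT zero_lt_one
    filter_upwards [h3] with r hr
    exact avg_lower (A r) (hA r) r hr.1 hr.2 (hAr r) (hpos r hr.1) z
  exact not_tendsto_nhds_of_tendsto_atTop h2 0 h

lemma zero_disc : (0 : Sp 2) ∈ discSet (Metric.ball 0 1) fld := by
  refine ⟨by simp, ?_⟩
  rintro ⟨z, hz⟩
  refine not_tendsto (fun r => Metric.ball 0 r) (fun r => Metric.isOpen_ball.measurableSet)
    (fun r => subset_rfl) (fun r hr => ?_) z hz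
  exact (Metric.measure_ball_pos volume _ hr).ne'

lemma zero_not_jump : (0 : Sp 2) ∉ jumpSet (Metric.ball 0 1) fld := by
  rintro ⟨_, a, b, ν, _, hν, hz, _⟩
  have hopen : ∀ r, IsOpen (halfBall (0 : Sp 2) ν r) := by
    intro r
    have h0 : halfBall (0 : Sp 2) ν r = Metric.ball 0 r ∩ {y | 0 < inner ℝ (y - 0) ν} := rfl
    rw [h0]
    refine Metric.isOpen_ball.inter (isOpen_lt continuous_const ?_)
    fun_prop
  refine not_tendsto (fun r => halfBall 0 ν r) (fun r => (hopen r).measurableSet)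
    (fun r y hy => hy.1) (fun r hr => ?_) a hz
  refine (hopen r).measure_ne_zero volume ⟨(r / 2) • ν, ?_, ?_⟩
  · rw [mem_ball_zero_iff, norm_smul, hν, mul_one, Real.norm_eq_abs, abs_of_pos (by linarith)]
    linarith
  · rw [sub_zero, inner_smul_left, real_inner_self_eq_norm_sq, hν]
    simp
    linarith

/-- **Main theorem.** In dimension two the function `u = 1/z` belongs to `BD_dev` of the unit disc,
and its deviatoric gradient is a nonzero measure concentrated on `S_u \ J_u`. -/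
theorem result : ∃ (ν : Measure (Sp 2)) (σ : Sp 2 → Fin 2 → Fin 2 → ℝ),
    DevMeasure 2 (Metric.ball 0 1) fld ν σ ∧
      0 < ν (discSet (Metric.ball 0 1) fld \ jumpSet (Metric.ball 0 1) fld) ∧
      ν (discSet (Metric.ball 0 1) fld \ jumpSet (Metric.ball 0 1) fld)ᶜ = 0 := by
  have h1 : ({0} : Set (Sp 2)) ⊆ discSet (Metric.ball 0 1) fld \ jumpSet (Metric.ball 0 1) fld := by
    rintro x rfl
    exact ⟨zero_disc, zero_not_jump⟩
  refine ⟨_, sg, fld_dev, ?_, ?_⟩
  · refine lt_of_lt_of_le ?_ (measure_mono h1)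
    rw [Measure.smul_apply, Measure.dirac_apply' _ (measurableSet_singleton _)]
    simp
    positivity
  · refine measure_mono_null (compl_subset_compl.2 h1) ?_
    rw [Measure.smul_apply, Measure.dirac_apply' _ (measurableSet_singleton _).compl]
    simp

end Pool.Agent.Results.MP_d02974_an.DeviatoricPlane
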